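import Pool.Agent.Q62.RN.Stm

/-! Project RN: lemma A1 (Hausdorff measure on the segment). -/

open MeasureTheory Filter Topology Set
open scoped ContDiff ENNReal
open Pool.Agent.Q62.RN

namespace Pool.Agent.Q203.RN

lemma map_eq (s : Set ℝ) (_hs : MeasurableSet s) :
    H1.restrict (Complex.ofReal '' s) = Measure.map Complex.ofReal (volume.restrict s) := by
  have hiso : Isometry Complex.ofReal := Complex.isometry_ofReal
  have hme : MeasurableEmbedding Complex.ofReal := hiso.isClosedEmbedding.measurableEmbedding
  ext t ht
  rw [Measure.restrict_apply ht, Measure.map_apply hme.measurable ht,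
    Measure.restrict_apply (hme.measurable ht)]
  have e : t ∩ Complex.ofReal '' s = Complex.ofReal '' (Complex.ofReal ⁻¹' t ∩ s) := by
    rw [Set.image_preimage_inter]
  rw [e, hiso.hausdorffMeasure_image (Or.inl zero_le_one), hausdorffMeasure_real]

lemma H1_image (s : Set ℝ) : H1 (Complex.ofReal '' s) = volume s := by
  have hiso : Isometry Complex.ofReal := Complex.isometry_ofReal
  rw [hiso.hausdorffMeasure_image (Or.inl zero_le_one), hausdorffMeasure_real]

theorem t_A1 : S_A1 := by
  intro l hl
  have hiso : Isometry Complex.ofReal := Complex.isometry_ofReal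
  have hme : MeasurableEmbedding Complex.ofReal := hiso.isClosedEmbedding.measurableEmbedding
  refine ⟨map_eq _ measurableSet_Icc, ?_, ?_, ?_, ?_⟩
  · rw [S0, H1_image, Real.volume_Icc, sub_zero]
  · exact isCompact_Icc.image Complex.continuous_ofReal
  · intro φ hφ
    rw [show H1.restrict (S0 l) = Measure.map Complex.ofReal (volume.restrict (Icc 0 l)) from
      map_eq _ measurableSet_Icc, hme.integral_map, intervalIntegral.integral_of_le hl.le,
      integral_Icc_eq_integral_Ioc]
  · intro a b ha hab hb h hh
    have e : S0 l ∩ rect a b h = Complex.ofReal '' (Icc a b) := by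
      ext p
      constructor
      · rintro ⟨⟨x, hx, rfl⟩, h1, h2, -⟩
        exact ⟨x, ⟨by simpa using h1, by simpa using h2⟩, rfl⟩
      · rintro ⟨x, hx, rfl⟩
        refine ⟨⟨x, ⟨ha.trans hx.1, hx.2.trans hb⟩, rfl⟩, ?_, ?_, ?_⟩
        · simpa using hx.1
        · simpa using hx.2
        · simpa using hh.le
    rw [e, H1_image, Real.volume_Icc]

end Pool.Agent.Q203.RN
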